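import Pool.Agent.H94.G5T.M102
import Pool.Agent.H94.G5T.M106
import Pool.Agent.H94.G5T.M171

/-!
# G4 Z LctB: the integrals are holomorphic near the points of the line off `D`, and extend over the good hits

`gg_off`: choose `r` such that `closedBall z₀ (2 r)` is mapped into `Gd D (2 δ)` by the line (`D` closed), and to the neighbourhood of `y₀ = z₀ • a + b` on which the lift `φ` of `Csf.hol` is analytic; for `𝒰`-many
`n` the arc `h n` maps the ball into `Gd D δ` and this neighbourhood; `TG.exists_cst` (`TG/Cp`) gives `ε, ε₀`, `lct_sec` the distance, `jj_an` (`Z/JAn`) with the curves `φ ∘ h n` and `F n`.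

`gg_hit`: `Crs` at `q = z₀ • a + b`, `e = a` with `η` smaller than `ε` and than half of the `r₀` of `sec_arc` (`Z/Arc`) at `y₀ = q`; the line itself satisfies the hypothesis of the first part, so the compact annulus
`s₀/4 ≤ ‖z - z₀‖ ≤ s₀` is mapped by the line into `Gd D (2 δ)` for some `δ > 0`, and by `h n` into `Gd D δ`; `exists_cst`, then `ε₁` of `Crs`; the curve `γ z = h n (z₀ + z)`, `F n (z₀ + z)`, and the curve `G` of `sec_arc`
with `r = 2 s₀` (`lct_isol` for its last hypothesis); `jj_eq_II` (`TG/JJ`).  The disc `ball z₀ r` of the statement is `ball z₀ s₀`.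
-/

set_option autoImplicit false

open Topology Filter Metric

namespace Pool.Agent.G4

open Pool.Agent.H36.BP (EN fs wd Sub)
open Pool.Agent.H14.PP (IsCone CurveAt Tan)
open Pool.Agent.H62.EF (MN pr)
open Pool.Agent.AD (Vd Chart Charts)
open Pool.Agent.TG (TMap Lat Geo Gd)

open Pool.Agent.TG (VForm JJ II Cst Fb TransAt)
open Pool.Agent.G3 (Cv wt PS QD Crs Lim Arr gg jj_an)

variable {N k : ℕ} {X : Set (EN N)} {Λ : AddSubgroup (Vd (k + 1))} {u : EN N → Vd (k + 1)} {D B : Set (Vd (k + 1))} {p : EN N → EN N → ℝ} {m d : ℕ} {C : ℝ}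
  {Q : EN N → ℂ} {S : Set (Vd (k + 1) → MN N)} {J r : ℕ} {α : Fin J → VForm X Λ u} {W : Fin r → Vd (k + 1) →L[ℂ] ℂ} {𝒰 : Ultrafilter ℕ} {F : ℕ → ℂ → EN N} {h : ℕ → ℂ → Vd (k + 1)} {E : ℕ → ℂ → ℂ}
  {a b : Vd (k + 1)} {Φ : Vd (k + 1) → MN N}

/-- a compact set off the closed set `D` has a positive distance from `D` -/
private theorem lctb_gd (hDc : IsClosed D) {K : Set (Vd (k + 1))} (hK : IsCompact K) (h : ∀ y ∈ K, y ∉ D) :
    ∃ δ : ℝ, 0 < δ ∧ ∀ y ∈ K, y ∈ Gd D δ := by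
  obtain ⟨δ, hδ, hs⟩ := hK.exists_thickening_subset_open hDc.isOpen_compl (fun y hy => h y hy)
  refine ⟨δ, hδ, fun y hy b hb => ?_⟩
  by_contra hlt
  push Not at hlt
  have hb' : b ∈ Metric.thickening δ K := by
    rw [Metric.mem_thickening_iff]
    exact ⟨y, hy, by rw [dist_comm, dist_eq_norm]; exact hlt⟩
  exact hs hb' hb

private theorem lctb_near {δ t : ℝ} {y y' : Vd (k + 1)} (hy : y ∈ Gd D (δ + t)) (h : ‖y' - y‖ ≤ t) : y' ∈ Gd D δ := by
  intro b hb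
  have h1 := hy b hb
  have h2 : ‖y - b‖ ≤ ‖y' - b‖ + ‖y' - y‖ := by
    calc ‖y - b‖ = ‖(y' - b) - (y' - y)‖ := by congr 1; abel
      _ ≤ _ := norm_sub_le _ _
  linarith

theorem gg_off (H : Sit X Λ u D B p m C Q d S α W) (hΦ : Φ ∈ S) (A : Arr X Λ u D Q d p m 𝒰 F h E a b Φ) (β : VForm X Λ u) {z₀ : ℂ} (hz : z₀ • a + b ∉ D) :
    ∃ r : ℝ, 0 < r ∧ ∀ᶠ n in (𝒰 : Filter ℕ), DifferentiableOn ℂ (gg β Φ (F n) (h n)) (ball z₀ r) := by
  set y₀ : Vd (k + 1) := z₀ • a + b with hy₀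
  obtain ⟨δ₁, hδ₁, hgd⟩ := lctb_gd H.geo.D_closed (isCompact_singleton (x := y₀)) (fun y hy => by
    rw [Set.mem_singleton_iff] at hy; rw [hy]; exact hz)
  have hy₀G : y₀ ∈ Gd D δ₁ := hgd y₀ rfl
  obtain ⟨φ, hφan, hφ⟩ := H.csf.hol Φ hΦ y₀ hz
  obtain ⟨ρ, hρ, hball⟩ := Metric.eventually_nhds_iff_ball.1 (hφan.eventually_analyticAt.and hφ)
  set t : ℝ := min (δ₁ / 4) (ρ / 4) with ht
  have htpos : 0 < t := lt_min (by positivity) (by positivity)
  set r : ℝ := t / (‖a‖ + 1) with hr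
  have ha1 : 0 < ‖a‖ + 1 := by positivity
  have hrpos : 0 < r := by positivity
  have hline : ∀ z ∈ closedBall z₀ r, ‖(z • a + b) - y₀‖ ≤ t := by
    intro z hz
    rw [mem_closedBall, dist_eq_norm] at hz
    have e1 : (z • a + b) - y₀ = (z - z₀) • a := by
      rw [hy₀, sub_smul]; abel
    rw [e1, norm_smul]
    calc ‖z - z₀‖ * ‖a‖ ≤ r * (‖a‖ + 1) := by
          apply mul_le_mul hz (by linarith) (norm_nonneg _) hrpos.le
      _ = t := by rw [hr]; field_simp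
  refine ⟨r, hrpos, ?_⟩
  obtain ⟨ε, ε₀, -, -, hc⟩ := Pool.Agent.TG.exists_cst H.geo (δ := δ₁ / 2) (η := 1) (by positivity) one_pos
  have hKD : ∀ z ∈ closedBall z₀ r, z • a + b ∉ D := by
    intro z hz
    have h1 : z • a + b ∈ Gd D (δ₁ / 2) := by
      refine lctb_near (t := δ₁ / 2) ?_ ((hline z hz).trans ((min_le_left _ _).trans (by linarith)))
      rw [add_halves]
      exact hy₀G
    exact Pool.Agent.TG.gd_notMem (by positivity) h1
  have hsec := lct_sec H.geo.cone H.geo.D_closed H.csf hΦ A.lim (isCompact_closedBall z₀ r) hKD hc.ε₀_pos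
  filter_upwards [A.lim.cv (‖z₀‖ + r + 1), A.lim.hlim (‖z₀‖ + r + 1) t htpos, hsec] with n hcv hlim hs
  have hsub : ball z₀ r ⊆ ball (0 : ℂ) (‖z₀‖ + r + 1) := by
    intro z hz
    rw [mem_ball, dist_eq_norm] at hz ⊢
    rw [sub_zero]
    calc ‖z‖ = ‖(z - z₀) + z₀‖ := by rw [sub_add_cancel]
      _ ≤ ‖z - z₀‖ + ‖z₀‖ := norm_add_le _ _
      _ < ‖z₀‖ + r + 1 := by linarith
  have hnear : ∀ z ∈ ball z₀ r, ‖h n z - y₀‖ ≤ 2 * t := by
    intro z hz
    have h1 := hline z (ball_subset_closedBall hz)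
    have h2 := hlim z (ball_subset_closedBall (hsub hz))
    calc ‖h n z - y₀‖ = ‖(h n z - (z • a + b)) + ((z • a + b) - y₀)‖ := by congr 1; abel
      _ ≤ _ := norm_add_le _ _
      _ ≤ 2 * t := by linarith
  have hin : ∀ z ∈ ball z₀ r, h n z ∈ ball y₀ ρ := by
    intro z hz
    rw [mem_ball, dist_eq_norm]
    have h1 := hnear z hz
    have h2 : t ≤ ρ / 4 := min_le_right _ _
    linarith
  have hGd : ∀ z ∈ ball z₀ r, h n z ∈ Gd D (δ₁ / 2) := by
    intro z hz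
    refine lctb_near (t := δ₁ / 2) ?_ ((hnear z hz).trans ?_)
    · rw [add_halves]; exact hy₀G
    · have h2 : t ≤ δ₁ / 4 := min_le_left _ _
      linarith
  have hG : Cv X Λ u (ball z₀ r) (F n) (h n) := hcv.mono hsub
  have hφF : Cv X Λ u (ball z₀ r) (fun z => φ (h n z)) (h n) :=
    { F_diff := fun z hz => by
        have h1 : DifferentiableAt ℂ φ (h n z) := (hball _ (hin z hz)).1.differentiableAt
        have h2 := hG.h_diff z hz
        exact h1.comp_differentiableWithinAt z h2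
      h_diff := hG.h_diff
      mem := fun z hz => (hball _ (hin z hz)).2.1
      lift := fun z hz => (hball _ (hin z hz)).2.2.2 }
  have hdist : ∀ z ∈ ball z₀ r, dist (pr (φ (h n z))) (pr (F n z)) ≤ ε₀ := by
    intro z hz
    rw [← (hball _ (hin z hz)).2.2.1]
    exact (hs z (ball_subset_closedBall hz)).2.2.2.le
  have key := jj_an H.geo hc β hrpos hφF hG hGd hdist
  refine key.congr fun z hz => ?_
  unfold gg
  rw [(hball _ (hin z hz)).2.2.1]

theorem gg_hit (H : Sit X Λ u D B p m C Q d S α W) (hΦ : Φ ∈ S) (A : Arr X Λ u D Q d p m 𝒰 F h E a b Φ) (β : VForm X Λ u) {z₀ : ℂ} (hz : z₀ • a + b ∈ D)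
    (hB : z₀ • a + b ∉ B) (ht : TransAt D (z₀ • a + b) a) {ε : ℝ} (hε : 0 < ε) :
    ∃ r : ℝ, 0 < r ∧ r < ε ∧ ∀ᶠ n in (𝒰 : Filter ℕ), ∃ K : ℂ → ℂ, DifferentiableOn ℂ K (ball z₀ r) ∧
      ∀ z, r / 4 < dist z z₀ → dist z z₀ < r → K z = gg β Φ (F n) (h n) z := by
  set q : Vd (k + 1) := z₀ • a + b with hq
  obtain ⟨s₁, hs₁, hcr⟩ := H.crs q a hz hB ht
  obtain ⟨s₀, ρ₀, hs₀, hs₀η, hs₀s₁, hρ₀, hfirst, hsecond⟩ := hcr ε hε
  have hs₀ε : s₀ < ε := hs₀η
  -- the annulus on the line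
  set Kc : Set ℂ := closedBall (0 : ℂ) s₀ ∩ {z | s₀ / 4 ≤ ‖z‖} with hKc
  have hKcc : IsCompact Kc := (isCompact_closedBall (0 : ℂ) s₀).inter_right (isClosed_le continuous_const continuous_norm)
  have hKcm : ∀ z : ℂ, s₀ / 4 ≤ ‖z‖ → ‖z‖ ≤ s₀ → z ∈ Kc := fun z h1 h2 =>
    ⟨by rw [mem_closedBall, dist_zero_right]; exact h2, h1⟩
  have hKcs : ∀ z ∈ Kc, s₀ / 4 ≤ ‖z‖ ∧ ‖z‖ ≤ s₀ := fun z hz =>
    ⟨hz.2, by have := hz.1; rwa [mem_closedBall, dist_zero_right] at this⟩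
  have hlineD : ∀ z ∈ Kc, q + z • a ∉ D := by
    intro z hz hzD
    have h1 := hfirst (fun z => q + z • a) (by fun_prop) (fun z _ => by simp [hρ₀.le]) z (by
      rw [mem_ball, dist_zero_right]; linarith [(hKcs z hz).2]) hzD
    linarith [(hKcs z hz).1]
  obtain ⟨δ₁, hδ₁, hgd⟩ := lctb_gd H.geo.D_closed (hKcc.image (f := fun z : ℂ => q + z • a) (by fun_prop))
    (by rintro _ ⟨z, hz, rfl⟩; exact hlineD z hz)
  have hgd' : ∀ z ∈ Kc, q + z • a ∈ Gd D δ₁ := fun z hz => hgd _ ⟨z, hz, rfl⟩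
  obtain ⟨ε', ε₀, -, -, hc⟩ := Pool.Agent.TG.exists_cst H.geo (δ := δ₁ / 2) (η := 1) (by positivity) one_pos
  obtain ⟨ε₁, hε₁, hε₁₀, hK⟩ := hsecond (δ₁ / 2) ε' ε₀ hc
  refine ⟨s₀, hs₀, hs₀ε, ?_⟩
  have hline : ∀ z : ℂ, (z₀ + z) • a + b = q + z • a := by
    intro z; rw [hq, add_smul]; abel
  -- the annulus around z₀
  have hKsec := lct_sec H.geo.cone H.geo.D_closed H.csf hΦ A.lim (K := (fun z : ℂ => z₀ + z) '' Kc)
    (hKcc.image (by fun_prop)) (by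
      rintro _ ⟨z, hz, rfl⟩
      rw [hline]
      exact hlineD z hz) hε₁
  set R : ℝ := ‖z₀‖ + s₁ + 4 * s₀ + 1 with hR
  have hRpos : 0 < R := by positivity
  have hRsub : ∀ (z : ℂ) (s : ℝ), s ≤ s₁ + 4 * s₀ → ‖z‖ ≤ s → z₀ + z ∈ ball (0 : ℂ) R := by
    intro z s hs hz
    rw [mem_ball, dist_zero_right]
    calc ‖z₀ + z‖ ≤ ‖z₀‖ + ‖z‖ := norm_add_le _ _
      _ < R := by rw [hR]; linarith
  set t : ℝ := min ρ₀ (δ₁ / 2) with htd
  have htpos : 0 < t := lt_min hρ₀ (by positivity)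
  have htρ₀ : t ≤ ρ₀ := min_le_left _ _
  have htδ : t ≤ δ₁ / 2 := min_le_right _ _
  filter_upwards [A.lim.cv R, A.lim.hlim R t htpos, A.ok, hKsec] with n hcv hlim hok hs
  have hshift : Differentiable ℂ (fun z : ℂ => z₀ + z) := by fun_prop
  set γ : ℂ → Vd (k + 1) := fun z => h n (z₀ + z) with hγ
  have hnear : ∀ z : ℂ, z₀ + z ∈ ball (0 : ℂ) R → ‖γ z - (q + z • a)‖ ≤ t := by
    intro z hz
    have h1 := hlim (z₀ + z) (ball_subset_closedBall hz)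
    rw [hline] at h1
    exact h1.le
  have hisol := lct_isol H.qd hRpos hcv hok.1
  have hγisol : ∀ z ∈ ball (0 : ℂ) (2 * (2 * s₀)), ∀ᶠ w in 𝓝[≠] z, γ w ∉ D := by
    intro z hz
    rw [mem_ball, dist_zero_right] at hz
    have h1 := hisol (z₀ + z) (hRsub z (4 * s₀) (by linarith) (by linarith))
    have h2 : Tendsto (fun w : ℂ => z₀ + w) (𝓝[≠] z) (𝓝[≠] (z₀ + z)) := by
      refine tendsto_nhdsWithin_of_tendsto_nhds_of_eventually_within _ ?_ ?_
      · exact ((continuous_const.add continuous_id).tendsto z).mono_left nhdsWithin_le_nhds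
      · filter_upwards [self_mem_nhdsWithin] with w hw
        intro hww
        exact hw (add_left_cancel hww)
    exact h2.eventually h1
  have hcvγ : ∀ s : ℝ, s ≤ s₁ + 4 * s₀ → Cv X Λ u (ball 0 s) (fun z => F n (z₀ + z)) γ := by
    intro s hs
    refine hcv.comp hshift.differentiableOn fun z hz => ?_
    rw [mem_ball, dist_zero_right] at hz
    exact hRsub z s hs hz.le
  obtain ⟨G, hGcv, hGeq⟩ := sec_arc H.geo.cone H.geo.tor H.geo.lat H.geo.D_closed H.csf hΦ (γ := γ) (r := 2 * s₀) (R := 2 * (2 * s₀)) (by linarith)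
    (hcvγ (2 * (2 * s₀)) (by linarith)).h_diff hγisol
  have hγGd : ∀ z : ℂ, s₀ / 4 ≤ ‖z‖ → ‖z‖ ≤ s₀ → γ z ∈ Gd D (δ₁ / 2) := by
    intro z h1 h2
    refine lctb_near (t := δ₁ / 2) ?_ ((hnear z (hRsub z s₀ (by linarith) h2)).trans htδ)
    rw [add_halves]
    exact hgd' z (hKcm z h1 h2)
  have hGΦ : ∀ z : ℂ, s₀ / 4 ≤ ‖z‖ → ‖z‖ ≤ s₀ → pr (G z) = Φ (γ z) := by
    intro z h1 h2
    exact hGeq z (by rw [mem_ball, dist_zero_right]; linarith)
      (Pool.Agent.TG.gd_notMem (by positivity) (hγGd z h1 h2))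
  have hsz : ∀ z : ℂ, s₀ / 4 ≤ ‖z‖ → ‖z‖ ≤ s₀ → γ z ∉ D ∧ Φ (γ z) ∈ Fb X Λ u (γ z) ∧ pr (F n (z₀ + z)) ∈ Fb X Λ u (γ z) ∧
      dist (Φ (γ z)) (pr (F n (z₀ + z))) < ε₁ := fun z h1 h2 => hs (z₀ + z) ⟨z, hKcm z h1 h2, rfl⟩
  obtain ⟨K, hKd, hKe⟩ := hK γ (hcvγ s₁ (by linarith)).h_diff (fun z hz => by
      rw [mem_ball, dist_zero_right] at hz
      exact (hnear z (hRsub z s₁ (by linarith) hz.le)).trans htρ₀) hγGd β G (fun z => F n (z₀ + z)) hGcv
    (hcvγ (2 * s₀) (by linarith)) (fun z h1 h2 => by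
      rw [hGΦ z h1 h2]
      exact (hsz z h1 h2).2.2.2.le)
  refine ⟨fun z => K (z - z₀), ?_, ?_⟩
  · refine hKd.comp (by fun_prop) fun z hz => ?_
    rw [mem_ball, dist_eq_norm] at hz
    rw [mem_ball, dist_zero_right]
    exact hz
  · intro z h1 h2
    rw [dist_eq_norm] at h1 h2
    have e1 : z₀ + (z - z₀) = z := by ring
    have h3 := hsz (z - z₀) h1.le h2.le
    have hγz : γ (z - z₀) = h n z := by rw [hγ]; simp only [e1]
    show K (z - z₀) = _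
    rw [hKe (z - z₀) h1 h2, hGΦ (z - z₀) h1.le h2.le]
    unfold gg
    rw [← Pool.Agent.TG.jj_eq_II H.geo.cone H.geo.tor H.geo.lat hc (hγGd _ h1.le h2.le) h3.2.1 h3.2.2.1
      (h3.2.2.2.le.trans hε₁₀), hγz, e1]

end Pool.Agent.G4
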